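import Pool.Agent.LibWitt94.Der
import Pool.Agent.LibWitt94.VirAlg
import Pool.Agent.LibWitt94.VirExist

/-!
MP_940f41_al, Q1, complete answer (positive): for an algebraically closed field of characteristic
zero the enveloping algebras of `W_{-1} = Der k[t]`, of the Witt algebra `W = Der k[t, 1/t]` and of
the Virasoro algebra satisfy the ascending chain condition on primitive ideals.
-/

universe u

open scoped Polynomial LaurentPolynomial

namespace Pool.Agent.Results.MP_940f41_al.PrimitiveACC

theorem result (k : Type u) [Field k] [IsAlgClosed k] [CharZero k] :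
    W94.AccPrimitive (UniversalEnvelopingAlgebra k (Derivation k k[X] k[X])) ∧
    W94.AccPrimitive (UniversalEnvelopingAlgebra k (Derivation k k[T;T⁻¹] k[T;T⁻¹])) ∧
    (∃ (L : Type u) (_ : LieRing L) (_ : LieAlgebra k L) (b : Module.Basis (Option ℤ) k L),
      W94.IsVirasoro b) ∧
    ∀ (L : Type u) [LieRing L] [LieAlgebra k L] (b : Module.Basis (Option ℤ) k L),
      W94.IsVirasoro b → W94.AccPrimitive (UniversalEnvelopingAlgebra k L) := by
  refine ⟨W94.acc_witt_plus, W94.acc_witt, ?_, fun L _ _ b h => W94.acc_virasoro h⟩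
  obtain ⟨L, i1, i2, b, h1, h2⟩ := W94.exists_virasoro k
  exact ⟨L, i1, i2, b, ⟨h1, h2⟩⟩

end Pool.Agent.Results.MP_940f41_al.PrimitiveACC
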